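import Pool.Agent.ThompsonV.Gadget
import Pool.Agent.DPRM.Interface

set_option autoImplicit false

/-! # Encoding of elementary integer equations as equations over Thompson's group `V` -/

namespace Pool.Agent.ThompsonV

open Pool.Agent.DPRM (Elem)

/-- prefix replacement tables -/
abbrev Tab := List (List Bool × List Bool)

/-- letters -/
abbrev Letter := (ℕ ⊕ Tab) × Bool

/-- Satisfiability, exactly as in the frozen statement. -/
def Sat (S : List (List Letter)) : Prop :=
  ∃ σ : ℕ → Equiv.Perm Om, ∃ τ : Tab → Equiv.Perm Om,
    (∀ n : ℕ, ∃ D : Tab, IsTable D (σ n)) ∧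
    (∀ e ∈ S, ∀ x ∈ e, ∀ D : Tab, x.1 = Sum.inr D → IsTable D (τ D)) ∧
    ∀ e ∈ S, (e.map (fun x => if x.2 then Sum.elim σ τ x.1 else (Sum.elim σ τ x.1)⁻¹)).prod = 1

/-- Table of `G`. -/
def DG : Tab := [([false, false], [false]), ([false, true], [true, false]), ([true], [true, true])]

/-- Table of `beta b (dl 0)`. -/
def DB (b : Bool) : Tab :=
  [([false, true, b, false, false], [false, true, b, false]),
   ([false, true, b, false, true], [false, true, b, true, false]),
   ([false, true, b, true], [false, true, b, true, true]),
   ([false, true, !b], [false, true, !b]),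
   ([false, false], [false, false]),
   ([true], [true])]

theorem table_unique {D : Tab} {σ τ : Equiv.Perm Om} (h : IsTable D σ) (h' : IsTable D τ) :
    σ = τ := by
  ext1 w
  obtain ⟨p, hp, hw⟩ := h.1 w
  obtain ⟨w', rfl⟩ := (pre_iff _ _).1 hw
  rw [h.2 p hp, h'.2 p hp]

theorem table_G : IsTable DG G := by
  constructor
  · intro w
    obtain ⟨b, w, rfl⟩ := exists_cons w
    cases b
    · obtain ⟨b, w, rfl⟩ := exists_cons w
      cases b
      · exact ⟨([false, false], [false]), by simp [DG], (pre_iff _ _).2 ⟨w, by simp⟩⟩
      · exact ⟨([false, true], [true, false]), by simp [DG], (pre_iff _ _).2 ⟨w, by simp⟩⟩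
    · exact ⟨([true], [true, true]), by simp [DG], (pre_iff _ _).2 ⟨w, by simp⟩⟩
  · intro p hp w
    simp only [DG, List.mem_cons, List.not_mem_nil, or_false] at hp
    rcases hp with rfl | rfl | rfl
    · simp [G00]
    · simp [G01]
    · simp [G1]

theorem table_B (b : Bool) : IsTable (DB b) (beta b (dl 0)) := by
  have e0 : dl 0 0 = 1 := by simp [dl]
  constructor
  · intro w
    obtain ⟨c, w, rfl⟩ := exists_cons w
    cases c
    · obtain ⟨c, w, rfl⟩ := exists_cons w
      cases c
      · exact ⟨([false, false], [false, false]), by simp [DB], (pre_iff _ _).2 ⟨w, by simp⟩⟩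
      · obtain ⟨c, w, rfl⟩ := exists_cons w
        by_cases hc : c = b
        · subst hc
          obtain ⟨c', w, rfl⟩ := exists_cons w
          cases c'
          · obtain ⟨c', w, rfl⟩ := exists_cons w
            cases c'
            · exact ⟨([false, true, c, false, false], [false, true, c, false]), by simp [DB],
                (pre_iff _ _).2 ⟨w, by simp⟩⟩
            · exact ⟨([false, true, c, false, true], [false, true, c, true, false]), by simp [DB],
                (pre_iff _ _).2 ⟨w, by simp⟩⟩
          · exact ⟨([false, true, c, true], [false, true, c, true, true]), by simp [DB],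
                (pre_iff _ _).2 ⟨w, by simp⟩⟩
        · have hc' : c = !b := by cases c <;> cases b <;> simp_all
          subst hc'
          exact ⟨([false, true, !b], [false, true, !b]), by simp [DB],
            (pre_iff _ _).2 ⟨w, by simp⟩⟩
    · exact ⟨([true], [true]), by simp [DB], (pre_iff _ _).2 ⟨w, by simp⟩⟩
  · intro p hp w
    simp only [DB, List.mem_cons, List.not_mem_nil, or_false] at hp
    rcases hp with rfl | rfl | rfl | rfl | rfl | rfl
    · simp only [app_cons, app_nil]
      rw [← E_zero, beta_E, e0, hp_same, zpow_one, G00, E_zero]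
    · simp only [app_cons, app_nil]
      rw [← E_zero, beta_E, e0, hp_same, zpow_one, G01, E_zero]
    · simp only [app_cons, app_nil]
      rw [← E_zero, beta_E, e0, hp_same, zpow_one, G1, E_zero]
    · simp only [app_cons, app_nil]
      rw [← E_zero, beta_E, hp_ne _ _ (by simp)]
    · have key : ∀ x : Om, x = rep 2 false w → beta b (dl 0) x = x := by
        intro x hx
        rcases cover x with ⟨c, rfl⟩ | ⟨i, d, rfl⟩
        · rw [beta_cst]
        · have := level_low (by norm_num) hx
          have h0 : dl 0 i = 0 := by
            rw [dl, if_neg]; rintro rfl; norm_num at this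
          rw [beta_E, h0, hp_zero]; rfl
      have := key (app [false, false] w) (by simp [rep])
      exact this
    · have key : ∀ x : Om, x = rep 1 true w → beta b (dl 0) x = x := by
        intro x hx
        rcases cover x with ⟨c, rfl⟩ | ⟨i, d, rfl⟩
        · rw [beta_cst]
        · have := level_high (by norm_num) hx
          have h0 : dl 0 i = 0 := by
            rw [dl, if_neg]; rintro rfl; norm_num at this
          rw [beta_E, h0, hp_zero]; rfl
      have := key (app [true] w) (by simp [rep])
      exact this

/-! ## The encoding -/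

/-- main variable -/
def X (i : ℕ) (s : Bool) : Letter := (Sum.inl (4 * i), s)
/-- auxiliary variable number `t` of the product `i j` -/
def A (i j t : ℕ) (s : Bool) : Letter := (Sum.inl (4 * Nat.pair i j + t), s)
/-- the constant `G` -/
def cG (s : Bool) : Letter := (Sum.inr DG, s)
/-- the constant `H` -/
def cH (s : Bool) : Letter := (Sum.inr (DB false), s)
/-- the constant `W` -/
def cW (s : Bool) : Letter := (Sum.inr (DB true), s)

/-- commutation of `X i` with `G` -/
def cm (i : ℕ) : List Letter := [X i true, cG true, X i false, cG false]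

/-- the five equations of the gadget -/
def gad (i j k : ℕ) : List (List Letter) :=
  [[X i false, A i j 1 true, X i true, X k false, cH false, X k true, cH true, A i j 1 false],
   [A i j 1 true, cW true, A i j 1 false, cW false],
   [cG false, A i j 2 true, cG true, X j false, cH false, X j true, cH true, A i j 2 false],
   [A i j 2 true, cW true, A i j 2 false, cW false],
   [cG false, A i j 3 true, cG true, A i j 1 false, A i j 2 true, A i j 3 false]]

/-- the equations encoding an elementary equation -/
def enc : Elem → List (List Letter)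
  | .one i => [cm i, [X i true, cG false]]
  | .add i j k => [cm i, cm j, cm k, [X i true, X j true, X k false]]
  | .mul i j k => cm i :: cm j :: cm k :: gad i j k

/-- the system with parameter `n` -/
def sys (E : List Elem) (n : ℕ) : List (List Letter) :=
  cm 0 :: (X 0 true :: List.replicate n (cG false)) :: E.flatMap enc

theorem Gz_inj {a b : ℤ} (h : G ^ a = G ^ b) : a = b := by
  have := congrArg (fun σ => σ (E 0 (cst false))) h
  simp only [Gz_E] at this
  have := (E_inj this).1
  omega

/-- evaluation of letters -/
def ev (σ : ℕ → Equiv.Perm Om) (τ : Tab → Equiv.Perm Om) (x : Letter) : Equiv.Perm Om :=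
  if x.2 then Sum.elim σ τ x.1 else (Sum.elim σ τ x.1)⁻¹

/-! ### Soundness -/

theorem sound {E : List Elem} {n : ℕ} (h : Sat (sys E n)) :
    ∃ v : ℕ → ℤ, v 0 = (n : ℤ) ∧ ∀ e, e ∈ E → e.Holds v := by
  classical
  obtain ⟨σ, τ, h1, h2, h3⟩ := h
  have hloc : ∀ m, Loc (σ m) := fun m => InV.loc (h1 m)
  have h3' : ∀ e ∈ sys E n, (e.map (ev σ τ)).prod = 1 := h3
  have hG : τ DG = G := by
    refine table_unique (h2 (cm 0) (by simp [sys]) (cG true) (by simp [cm]) DG rfl) table_G
  -- commutation
  have hcm : ∀ i, cm i ∈ sys E n → ∃ a : ℤ, σ (4 * i) = G ^ a := by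
    intro i hi
    apply centraliser (hloc _)
    have := h3' _ hi
    simp only [cm, List.map_cons, List.map_nil, List.prod_cons, List.prod_nil, ev, X, cG,
      Sum.elim_inl, Sum.elim_inr, hG, if_true] at this
    simp only [Bool.false_eq_true, if_false, mul_one] at this
    have h4 : σ (4 * i) * G * (σ (4 * i))⁻¹ * G⁻¹ = 1 := by rw [← this]; group
    calc σ (4 * i) * G = (σ (4 * i) * G * (σ (4 * i))⁻¹ * G⁻¹) * (G * σ (4 * i)) := by group
      _ = G * σ (4 * i) := by rw [h4, one_mul]
  let v : ℕ → ℤ := fun i => if h : ∃ a : ℤ, σ (4 * i) = G ^ a then h.choose else 0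
  have hv : ∀ i, cm i ∈ sys E n → σ (4 * i) = G ^ v i := by
    intro i hi
    have h := hcm i hi
    simp only [v, dif_pos h]
    exact h.choose_spec
  refine ⟨v, ?_, ?_⟩
  · have h4 := h3' (X 0 true :: List.replicate n (cG false)) (by simp [sys])
    simp only [List.map_cons, List.map_replicate, List.prod_cons, List.prod_replicate, ev, X, cG,
      Sum.elim_inl, Sum.elim_inr, hG, if_true, Bool.false_eq_true, if_false] at h4
    have h5 := hv 0 (by simp [sys])
    rw [h5] at h4
    apply Gz_inj
    rw [inv_pow] at h4
    have h6 := mul_inv_eq_one.1 h4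
    rw [h6, zpow_natCast]
  · intro e he
    have hmem : ∀ l ∈ enc e, l ∈ sys E n := by
      intro l hl
      simp only [sys, List.mem_cons, List.mem_flatMap]
      exact Or.inr (Or.inr ⟨e, he, hl⟩)
    cases e with
    | one i =>
      have h4 := h3' _ (hmem [X i true, cG false] (by simp [enc]))
      have h5 := hv i (hmem _ (by simp [enc]))
      simp only [List.map_cons, List.map_nil, List.prod_cons, List.prod_nil, ev, X, cG,
        Sum.elim_inl, Sum.elim_inr, hG, if_true, Bool.false_eq_true, if_false, mul_one, h5] at h4
      change v i = 1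
      apply Gz_inj
      rw [mul_inv_eq_one.1 h4, zpow_one]
    | add i j k =>
      have h4 := h3' _ (hmem [X i true, X j true, X k false] (by simp [enc]))
      have hi := hv i (hmem _ (by simp [enc]))
      have hj := hv j (hmem _ (by simp [enc]))
      have hk := hv k (hmem _ (by simp [enc]))
      simp only [List.map_cons, List.map_nil, List.prod_cons, List.prod_nil, ev, X,
        Sum.elim_inl, if_true, Bool.false_eq_true, if_false, mul_one, hi, hj, hk] at h4
      change v i + v j = v k
      apply Gz_inj
      rw [zpow_add]
      rw [← mul_assoc] at h4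
      exact mul_inv_eq_one.1 h4
    | mul i j k =>
      have hi := hv i (hmem _ (by simp [enc]))
      have hj := hv j (hmem _ (by simp [enc]))
      have hk := hv k (hmem _ (by simp [enc]))
      have hg : ∀ l ∈ gad i j k, l ∈ sys E n := fun l hl => hmem l (by simp [enc, hl])
      have hH : τ (DB false) = H := by
        refine table_unique (h2 _ (hg _ (by simp [gad]; left; rfl)) (cH true) ?_ _ rfl)
          (table_B false)
        simp
      have hW : τ (DB true) = W := by
        refine table_unique (h2 _ (hg _ (by simp [gad]; right; left; rfl)) (cW true) ?_ _ rfl)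
          (table_B true)
        simp
      have g1 := h3' _ (hg [X i false, A i j 1 true, X i true, X k false, cH false, X k true,
        cH true, A i j 1 false] (by simp [gad]))
      have g2 := h3' _ (hg [A i j 1 true, cW true, A i j 1 false, cW false] (by simp [gad]))
      have g3 := h3' _ (hg [cG false, A i j 2 true, cG true, X j false, cH false, X j true,
        cH true, A i j 2 false] (by simp [gad]))
      have g4 := h3' _ (hg [A i j 2 true, cW true, A i j 2 false, cW false] (by simp [gad]))
      have g5 := h3' _ (hg [cG false, A i j 3 true, cG true, A i j 1 false, A i j 2 true,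
        A i j 3 false] (by simp [gad]))
      simp only [List.map_cons, List.map_nil, List.prod_cons, List.prod_nil, ev, X, A, cG, cH, cW,
        Sum.elim_inl, Sum.elim_inr, if_true, Bool.false_eq_true, if_false, mul_one, hi, hj, hk,
        hG, hH, hW] at g1 g2 g3 g4 g5
      change v i * v j = v k
      refine Mul.sound (hloc (4 * Nat.pair i j + 1)) (hloc (4 * Nat.pair i j + 2))
        (hloc (4 * Nat.pair i j + 3)) ⟨?_, ?_, ?_, ?_, ?_⟩
      · rw [← mul_inv_eq_one, ← g1]; group
      · rw [← mul_inv_eq_one, ← g2]; group
      · rw [← mul_inv_eq_one, ← g3]; group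
      · rw [← mul_inv_eq_one, ← g4]; group
      · rw [← mul_inv_eq_one, ← g5]; group

/-! ### Completeness -/

/-- chosen solutions of the gadget -/
noncomputable def Q1 (n m : ℤ) : Equiv.Perm Om := (Mul.complete n m).choose
/-- chosen solutions of the gadget -/
noncomputable def Q2 (n m : ℤ) : Equiv.Perm Om := (Mul.complete n m).choose_spec.choose
/-- chosen solutions of the gadget -/
noncomputable def Q3 (n m : ℤ) : Equiv.Perm Om :=
  (Mul.complete n m).choose_spec.choose_spec.choose

theorem Q_spec (n m : ℤ) : Loc (Q1 n m) ∧ Loc (Q2 n m) ∧ Loc (Q3 n m) ∧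
    Mul (G ^ n) (G ^ m) (G ^ (n * m)) (Q1 n m) (Q2 n m) (Q3 n m) :=
  (Mul.complete n m).choose_spec.choose_spec.choose_spec

/-- the assignment of the variables -/
noncomputable def asg (v : ℕ → ℤ) (m : ℕ) : Equiv.Perm Om :=
  if m % 4 = 0 then G ^ v (m / 4)
  else if m % 4 = 1 then Q1 (v (Nat.unpair (m / 4)).1) (v (Nat.unpair (m / 4)).2)
  else if m % 4 = 2 then Q2 (v (Nat.unpair (m / 4)).1) (v (Nat.unpair (m / 4)).2)
  else Q3 (v (Nat.unpair (m / 4)).1) (v (Nat.unpair (m / 4)).2)

theorem asg0 (v : ℕ → ℤ) (i : ℕ) : asg v (4 * i) = G ^ v i := by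
  have h1 : 4 * i % 4 = 0 := by omega
  have h2 : 4 * i / 4 = i := by omega
  rw [asg, if_pos h1, h2]

theorem asg1 (v : ℕ → ℤ) (i j : ℕ) : asg v (4 * Nat.pair i j + 1) = Q1 (v i) (v j) := by
  have h1 : (4 * Nat.pair i j + 1) % 4 = 1 := by omega
  have h2 : (4 * Nat.pair i j + 1) / 4 = Nat.pair i j := by omega
  simp [asg, h1, h2]

theorem asg2 (v : ℕ → ℤ) (i j : ℕ) : asg v (4 * Nat.pair i j + 2) = Q2 (v i) (v j) := by
  have h1 : (4 * Nat.pair i j + 2) % 4 = 2 := by omega
  have h2 : (4 * Nat.pair i j + 2) / 4 = Nat.pair i j := by omega
  simp [asg, h1, h2]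

theorem asg3 (v : ℕ → ℤ) (i j : ℕ) : asg v (4 * Nat.pair i j + 3) = Q3 (v i) (v j) := by
  have h1 : (4 * Nat.pair i j + 3) % 4 = 3 := by omega
  have h2 : (4 * Nat.pair i j + 3) / 4 = Nat.pair i j := by omega
  simp [asg, h1, h2]

theorem loc_asg (v : ℕ → ℤ) (m : ℕ) : Loc (asg v m) := by
  unfold asg
  split_ifs
  · exact loc_Gz _
  · exact (Q_spec _ _).1
  · exact (Q_spec _ _).2.1
  · exact (Q_spec _ _).2.2.1

/-- the interpretation of the constants -/
noncomputable def cst' (D : Tab) : Equiv.Perm Om :=
  if D = DG then G else if D = DB false then H else W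

theorem cst'_G : cst' DG = G := by simp [cst']
theorem cst'_H : cst' (DB false) = H := by
  have : DB false ≠ DG := by simp [DB, DG]
  simp [cst', this]
theorem cst'_W : cst' (DB true) = W := by
  have h1 : DB true ≠ DG := by simp [DB, DG]
  have h2 : DB true ≠ DB false := by simp [DB]
  simp [cst', h1, h2]

theorem complete {E : List Elem} {n : ℕ}
    (h : ∃ v : ℕ → ℤ, v 0 = (n : ℤ) ∧ ∀ e, e ∈ E → e.Holds v) : Sat (sys E n) := by
  obtain ⟨v, hv0, hv⟩ := h
  refine ⟨asg v, cst', fun m => (loc_asg v m).inV, ?_, ?_⟩
  · -- all constants are among the three tables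
    have key : ∀ l ∈ sys E n, ∀ x ∈ l, ∀ D : Tab, x.1 = Sum.inr D →
        D = DG ∨ D = DB false ∨ D = DB true := by
      have hcm : ∀ i, ∀ x ∈ cm i, ∀ D : Tab, x.1 = Sum.inr D →
          D = DG ∨ D = DB false ∨ D = DB true := by
        intro i x hx D hD
        simp only [cm, X, cG, List.mem_cons, List.not_mem_nil, or_false] at hx
        rcases hx with rfl | rfl | rfl | rfl <;> simp at hD <;> simp [hD]
      intro l hl x hx D hD
      simp only [sys, List.mem_cons, List.mem_flatMap] at hl
      rcases hl with rfl | rfl | ⟨e, _, he⟩
      · exact hcm 0 x hx D hD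
      · simp only [X, cG, List.mem_cons, List.mem_replicate] at hx
        rcases hx with rfl | ⟨_, rfl⟩ <;> simp at hD <;> simp [hD]
      · cases e with
        | one i =>
          simp only [enc, List.mem_cons, List.not_mem_nil, or_false] at he
          rcases he with rfl | rfl
          · exact hcm _ x hx D hD
          · simp only [X, cG, List.mem_cons, List.not_mem_nil, or_false] at hx
            rcases hx with rfl | rfl <;> simp at hD <;> simp [hD]
        | add i j k =>
          simp only [enc, List.mem_cons, List.not_mem_nil, or_false] at he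
          rcases he with rfl | rfl | rfl | rfl
          · exact hcm _ x hx D hD
          · exact hcm _ x hx D hD
          · exact hcm _ x hx D hD
          · simp only [X, List.mem_cons, List.not_mem_nil, or_false] at hx
            rcases hx with rfl | rfl | rfl <;> simp at hD
        | mul i j k =>
          simp only [enc, gad, List.mem_cons, List.not_mem_nil, or_false] at he
          rcases he with rfl | rfl | rfl | rfl | rfl | rfl | rfl | rfl
          · exact hcm _ x hx D hD
          · exact hcm _ x hx D hD
          · exact hcm _ x hx D hD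
          all_goals
            simp only [X, A, cG, cH, cW, List.mem_cons, List.not_mem_nil, or_false] at hx
          · rcases hx with rfl | rfl | rfl | rfl | rfl | rfl | rfl | rfl <;> simp at hD <;>
              simp [hD]
          · rcases hx with rfl | rfl | rfl | rfl <;> simp at hD <;> simp [hD]
          · rcases hx with rfl | rfl | rfl | rfl | rfl | rfl | rfl | rfl <;> simp at hD <;>
              simp [hD]
          · rcases hx with rfl | rfl | rfl | rfl <;> simp at hD <;> simp [hD]
          · rcases hx with rfl | rfl | rfl | rfl | rfl | rfl <;> simp at hD <;> simp [hD]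
    intro l hl x hx D hD
    rcases key l hl x hx D hD with rfl | rfl | rfl
    · rw [cst'_G]; exact table_G
    · rw [cst'_H]; exact table_B false
    · rw [cst'_W]; exact table_B true
  · change ∀ e ∈ sys E n, (e.map (ev (asg v) cst')).prod = 1
    have hcm : ∀ i, ((cm i).map (ev (asg v) cst')).prod = 1 := by
      intro i
      simp only [cm, List.map_cons, List.map_nil, List.prod_cons, List.prod_nil, ev, X, cG,
        Sum.elim_inl, Sum.elim_inr, cst'_G, if_true, Bool.false_eq_true, if_false, mul_one, asg0]
      group
    intro l hl
    simp only [sys, List.mem_cons, List.mem_flatMap] at hl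
    rcases hl with rfl | rfl | ⟨e, heE, he⟩
    · exact hcm 0
    · simp only [List.map_cons, List.map_replicate, List.prod_cons, List.prod_replicate, ev, X, cG,
        Sum.elim_inl, Sum.elim_inr, cst'_G, if_true, Bool.false_eq_true, if_false, asg0, hv0]
      rw [zpow_natCast, inv_pow, mul_inv_cancel]
    · have hhold := hv e heE
      cases e with
      | one i =>
        change v i = 1 at hhold
        simp only [enc, List.mem_cons, List.not_mem_nil, or_false] at he
        rcases he with rfl | rfl
        · exact hcm _
        · simp only [List.map_cons, List.map_nil, List.prod_cons, List.prod_nil, ev, X, cG,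
            Sum.elim_inl, Sum.elim_inr, cst'_G, if_true, Bool.false_eq_true, if_false, mul_one,
            asg0, hhold]
          group
      | add i j k =>
        change v i + v j = v k at hhold
        simp only [enc, List.mem_cons, List.not_mem_nil, or_false] at he
        rcases he with rfl | rfl | rfl | rfl
        · exact hcm _
        · exact hcm _
        · exact hcm _
        · simp only [List.map_cons, List.map_nil, List.prod_cons, List.prod_nil, ev, X,
            Sum.elim_inl, if_true, Bool.false_eq_true, if_false, mul_one,
            asg0, ← hhold]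
          group
      | mul i j k =>
        change v i * v j = v k at hhold
        obtain ⟨_, _, _, g1, g2, g3, g4, g5⟩ := Q_spec (v i) (v j)
        simp only [enc, gad, List.mem_cons, List.not_mem_nil, or_false] at he
        rcases he with rfl | rfl | rfl | rfl | rfl | rfl | rfl | rfl
        · exact hcm _
        · exact hcm _
        · exact hcm _
        all_goals
          simp only [List.map_cons, List.map_nil, List.prod_cons, List.prod_nil, ev, X, A, cG, cH,
            cW, Sum.elim_inl, Sum.elim_inr, cst'_G, cst'_H, cst'_W, if_true, Bool.false_eq_true,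
            if_false, mul_one, asg0, asg1, asg2, asg3, ← hhold]
        · rw [← mul_inv_eq_one] at g1
          rw [← g1]
          simp only [mul_inv_rev, inv_inv, mul_assoc]
        · rw [← mul_inv_eq_one] at g2
          rw [← g2]
          simp only [mul_inv_rev, inv_inv, mul_assoc]
        · rw [← mul_inv_eq_one] at g3
          rw [← g3]
          simp only [mul_inv_rev, inv_inv, mul_assoc]
        · rw [← mul_inv_eq_one] at g4
          rw [← g4]
          simp only [mul_inv_rev, inv_inv, mul_assoc]
        · rw [← mul_inv_eq_one] at g5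
          rw [← g5]
          simp only [mul_inv_rev, inv_inv, mul_assoc]

theorem sat_sys_iff (E : List Elem) (n : ℕ) :
    Sat (sys E n) ↔ ∃ v : ℕ → ℤ, v 0 = (n : ℤ) ∧ ∀ e, e ∈ E → e.Holds v :=
  ⟨sound, complete⟩

/-! ### Computability -/

theorem computable_sys (E : List Elem) : Computable (sys E) := by
  apply Primrec.to_comp
  have h1 : Primrec (fun n : ℕ => List.replicate n (cG false)) := by
    have h2 : Primrec (fun n : ℕ => (List.range n).map (fun _ => cG false)) :=
      Primrec.list_map Primrec.list_range (Primrec.const (cG false)).to₂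
    refine h2.of_eq fun n => ?_
    simp
  exact Primrec.list_cons.comp (Primrec.const (cm 0))
    (Primrec.list_cons.comp (Primrec.list_cons.comp (Primrec.const (X 0 true)) h1)
      (Primrec.const (E.flatMap enc)))

/-- Solvability of finite systems of equations over Thompson's group `V` is not computable. -/
theorem not_computable : ¬ ComputablePred Sat := by
  intro h
  obtain ⟨E, hE⟩ := Pool.Agent.DPRM.fixed_undecidable
  apply hE
  obtain ⟨hd, hc⟩ := h
  refine ComputablePred.of_eq (p := fun n => Sat (sys E n)) ?_ (fun n => sat_sys_iff E n)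
  exact ⟨fun n => hd (sys E n), hc.comp (computable_sys E)⟩

end Pool.Agent.ThompsonV
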