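import Mathlib

set_option autoImplicit false

/-! # Thompson's group `V`: coordinates along a hyperbolic element

`Om` is the Cantor space. `G` is the element `00 ↦ 0, 01 ↦ 10, 1 ↦ 11`. -/

namespace Pool.Agent.ThompsonV

/-- Cantor space. -/
abbrev Om := ℕ → Bool

/-- Concatenation of a finite word and an infinite word. -/
def app (u : List Bool) (w : Om) : Om :=
  fun k => if h : k < u.length then u.get ⟨k, h⟩ else w (k - u.length)

/-- `u` is a prefix of `w`. -/
def Pre (u : List Bool) (w : Om) : Prop := ∀ i : ℕ, ∀ h : i < u.length, w i = u.get ⟨i, h⟩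

/-- `D` is a complete prefix replacement table of `σ`. -/
def IsTable (D : List (List Bool × List Bool)) (σ : Equiv.Perm Om) : Prop :=
  (∀ w : Om, ∃ p ∈ D, Pre p.1 w) ∧ ∀ p ∈ D, ∀ w : Om, σ (app p.1 w) = app p.2 w

/-- Membership in Thompson's group `V`. -/
def InV (σ : Equiv.Perm Om) : Prop := ∃ D, IsTable D σ

/-- Put a letter in front. -/
def cons (b : Bool) (w : Om) : Om := fun k => Nat.casesOn k b w

/-- Remove the first letter. -/
def tl (w : Om) : Om := fun k => w (k + 1)

/-- Constant words. -/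
def cst (b : Bool) : Om := fun _ => b

@[simp] theorem cons_zero (b : Bool) (w : Om) : cons b w 0 = b := rfl
@[simp] theorem cons_succ (b : Bool) (w : Om) (k : ℕ) : cons b w (k + 1) = w k := rfl
@[simp] theorem tl_cons (b : Bool) (w : Om) : tl (cons b w) = w := rfl
@[simp] theorem cst_apply (b : Bool) (k : ℕ) : cst b k = b := rfl

theorem cons_tl (w : Om) : cons (w 0) (tl w) = w := by
  funext k; cases k <;> rfl

theorem exists_cons (w : Om) : ∃ b w', w = cons b w' := ⟨w 0, tl w, (cons_tl w).symm⟩

theorem cons_inj {b b' : Bool} {w w' : Om} (h : cons b w = cons b' w') : b = b' ∧ w = w' :=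
  ⟨congrFun h 0, funext fun k => congrFun h (k + 1)⟩

theorem cst_cons (b : Bool) : cons b (cst b) = cst b := by
  funext k; cases k <;> rfl

@[simp] theorem app_nil (w : Om) : app [] w = w := by
  funext k; simp [app]

@[simp] theorem app_cons (b : Bool) (u : List Bool) (w : Om) :
    app (b :: u) w = cons b (app u w) := by
  funext k
  cases k with
  | zero => simp [app]
  | succ k => simp [app]

theorem app_append (u v : List Bool) (w : Om) : app (u ++ v) w = app u (app v w) := by
  induction u with
  | nil => simp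
  | cons b u ih => simp [ih]

theorem pre_nil (w : Om) : Pre [] w := fun i h => absurd h (by simp)

theorem pre_cons (b : Bool) (u : List Bool) (w : Om) : Pre (b :: u) w ↔ w 0 = b ∧ Pre u (tl w) := by
  constructor
  · intro h
    refine ⟨h 0 (by simp), fun i hi => ?_⟩
    have := h (i + 1) (by simpa using hi)
    simpa [tl] using this
  · rintro ⟨h0, h1⟩ i hi
    cases i with
    | zero => simpa using h0
    | succ i => simpa [tl] using h1 i (by simpa using hi)

theorem pre_iff (u : List Bool) (w : Om) : Pre u w ↔ ∃ w', w = app u w' := by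
  induction u generalizing w with
  | nil => exact ⟨fun _ => ⟨w, by simp⟩, fun _ => pre_nil w⟩
  | cons b u ih =>
    rw [pre_cons]
    constructor
    · rintro ⟨h0, h1⟩
      obtain ⟨w', hw'⟩ := (ih _).1 h1
      refine ⟨w', ?_⟩
      rw [app_cons, ← hw', ← h0, cons_tl]
    · rintro ⟨w', rfl⟩
      rw [app_cons]
      exact ⟨rfl, (ih _).2 ⟨w', rfl⟩⟩

theorem app_inj (u : List Bool) {w w' : Om} (h : app u w = app u w') : w = w' := by
  induction u with
  | nil => simpa using h
  | cons b u ih =>
    rw [app_cons, app_cons] at h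
    exact ih (cons_inj h).2

/-! ## The local characterisation of `V` -/

/-- Local form of membership in `V`. -/
def Loc (σ : Equiv.Perm Om) : Prop :=
  ∀ w : Om, ∃ u v : List Bool, Pre u w ∧ ∀ x, σ (app u x) = app v x

theorem InV.loc {σ : Equiv.Perm Om} (h : InV σ) : Loc σ := by
  obtain ⟨D, hD, hD'⟩ := h
  intro w
  obtain ⟨p, hp, hw⟩ := hD w
  exact ⟨p.1, p.2, hw, hD' p hp⟩

theorem isOpen_pre (u : List Bool) : IsOpen {w : Om | Pre u w} := by
  induction u with
  | nil =>
    have : {w : Om | Pre [] w} = Set.univ := by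
      ext w; simp [pre_nil]
    rw [this]; exact isOpen_univ
  | cons b u ih =>
    have : {w : Om | Pre (b :: u) w} = {w : Om | w 0 = b} ∩ tl ⁻¹' {w : Om | Pre u w} := by
      ext w
      exact pre_cons b u w
    rw [this]
    apply IsOpen.inter
    · have h1 : Continuous fun w : Om => w 0 := continuous_apply 0
      exact (isOpen_discrete {b}).preimage h1
    · apply ih.preimage
      exact continuous_pi fun k => continuous_apply (k + 1)

theorem Loc.inV {σ : Equiv.Perm Om} (h : Loc σ) : InV σ := by
  choose u v hu hv using h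
  have hc : IsCompact (Set.univ : Set Om) := isCompact_univ
  obtain ⟨t, ht⟩ := hc.elim_finite_subcover (fun w : Om => {x : Om | Pre (u w) x})
    (fun w => isOpen_pre (u w)) (fun w _ => Set.mem_iUnion.2 ⟨w, hu w⟩)
  refine ⟨t.toList.map (fun w => (u w, v w)), ?_, ?_⟩
  · intro w
    have := ht (Set.mem_univ w)
    simp only [Set.mem_iUnion] at this
    obtain ⟨w', hw', hw''⟩ := this
    refine ⟨(u w', v w'), ?_, hw''⟩
    rw [List.mem_map]
    exact ⟨w', by simpa using hw', rfl⟩
  · intro p hp w
    rw [List.mem_map] at hp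
    obtain ⟨w', _, rfl⟩ := hp
    exact hv w' w

/-- arbitrarily long prefixes -/
theorem exists_long (w : Om) (n : ℕ) : ∃ s w', w = app s w' ∧ s.length = n := by
  induction n generalizing w with
  | zero => exact ⟨[], w, by simp, rfl⟩
  | succ n ih =>
    obtain ⟨s, w', h, hs⟩ := ih (tl w)
    refine ⟨w 0 :: s, w', ?_, by simp [hs]⟩
    rw [app_cons, ← h, cons_tl]

theorem pre_split (u s : List Bool) (w : Om) (h : Pre u (app s w)) (hl : u.length ≤ s.length) :
    ∃ t, s = u ++ t := by
  induction u generalizing s with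
  | nil => exact ⟨s, rfl⟩
  | cons b u ih =>
    cases s with
    | nil => simp at hl
    | cons b' s =>
      rw [app_cons, pre_cons] at h
      obtain ⟨h0, h1⟩ := h
      obtain ⟨t, ht⟩ := ih s h1 (by simpa using hl)
      refine ⟨t, ?_⟩
      rw [ht]
      simp only [cons_zero] at h0
      simp [h0]

theorem Loc.one : Loc 1 := fun w => ⟨[], [], pre_nil w, fun _ => rfl⟩

theorem Loc.mul {σ τ : Equiv.Perm Om} (hσ : Loc σ) (hτ : Loc τ) : Loc (σ * τ) := by
  intro w
  obtain ⟨p, p', hp, hp'⟩ := hτ w
  obtain ⟨w', rfl⟩ := (pre_iff _ _).1 hp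
  obtain ⟨r, r', hr, hr'⟩ := hσ (app p' w')
  obtain ⟨s, w'', rfl, hs⟩ := exists_long w' r.length
  rw [← app_append] at hr
  obtain ⟨t, ht⟩ := pre_split r (p' ++ s) w'' hr (by simp [hs])
  refine ⟨p ++ s, r' ++ t, ?_, ?_⟩
  · rw [pre_iff]; exact ⟨w'', by rw [app_append]⟩
  · intro x
    rw [Equiv.Perm.mul_apply, app_append, hp', ← app_append, ht, app_append, hr', app_append]

theorem Loc.inv {σ : Equiv.Perm Om} (hσ : Loc σ) : Loc σ⁻¹ := by
  intro w
  obtain ⟨p, p', hp, hp'⟩ := hσ (σ⁻¹ w)
  obtain ⟨z, hz⟩ := (pre_iff _ _).1 hp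
  refine ⟨p', p, ?_, ?_⟩
  · rw [pre_iff]
    refine ⟨z, ?_⟩
    rw [← hp', ← hz]; simp
  · intro x
    rw [← hp']; simp

/-! ## The element `G` -/

/-- forward map of `G`. -/
def Gf (w : Om) : Om :=
  if w 0 then cons true w else if w 1 then cons true (cons false (tl (tl w))) else tl w

/-- backward map of `G`. -/
def Gi (w : Om) : Om :=
  if w 0 then (if w 1 then tl w else cons false (cons true (tl (tl w)))) else cons false w

theorem Gf1 (w : Om) : Gf (cons true w) = cons true (cons true w) := by simp [Gf]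
theorem Gf01 (w : Om) : Gf (cons false (cons true w)) = cons true (cons false w) := by
  simp [Gf]
theorem Gf00 (w : Om) : Gf (cons false (cons false w)) = cons false w := by
  simp [Gf]

theorem Gi11 (w : Om) : Gi (cons true (cons true w)) = cons true w := by
  simp [Gi]
theorem Gi10 (w : Om) : Gi (cons true (cons false w)) = cons false (cons true w) := by
  simp [Gi]
theorem Gi0 (w : Om) : Gi (cons false w) = cons false (cons false w) := by simp [Gi]

/-- The hyperbolic element `G`. -/
def G : Equiv.Perm Om where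
  toFun := Gf
  invFun := Gi
  left_inv w := by
    obtain ⟨b, w, rfl⟩ := exists_cons w
    cases b
    · obtain ⟨b, w, rfl⟩ := exists_cons w
      cases b
      · rw [Gf00, Gi0]
      · rw [Gf01, Gi10]
    · rw [Gf1, Gi11]
  right_inv w := by
    obtain ⟨b, w, rfl⟩ := exists_cons w
    cases b
    · rw [Gi0, Gf00]
    · obtain ⟨b, w, rfl⟩ := exists_cons w
      cases b
      · rw [Gi10, Gf01]
      · rw [Gi11, Gf1]

theorem G1 (w : Om) : G (cons true w) = cons true (cons true w) := Gf1 w
theorem G01 (w : Om) : G (cons false (cons true w)) = cons true (cons false w) := Gf01 w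
theorem G00 (w : Om) : G (cons false (cons false w)) = cons false w := Gf00 w
theorem Ginv0 (w : Om) : G⁻¹ (cons false w) = cons false (cons false w) := Gi0 w

theorem G_cst (b : Bool) : G (cst b) = cst b := by
  cases b
  · have := G00 (cst false)
    rwa [cst_cons, cst_cons] at this
  · have := G1 (cst true)
    rwa [cst_cons, cst_cons] at this

theorem Gz_cst (b : Bool) (i : ℤ) : (G ^ i) (cst b) = cst b := by
  have h : G (cst b) = cst b := G_cst b
  exact Function.IsFixedPt.perm_zpow h i

/-- Coordinates: the point of level `i` with coordinate `d`. -/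
def E (i : ℤ) (d : Om) : Om := (G ^ i) (cons false (cons true d))

theorem G_E (i : ℤ) (d : Om) : G (E i d) = E (i + 1) d := by
  rw [E, E, add_comm, zpow_add, zpow_one, Equiv.Perm.mul_apply]

theorem Gz_E (j i : ℤ) (d : Om) : (G ^ j) (E i d) = E (i + j) d := by
  rw [E, E, add_comm, zpow_add, Equiv.Perm.mul_apply]

theorem E_zero (d : Om) : E 0 d = cons false (cons true d) := by simp [E]

/-- `b` repeated `n` times and then `w` -/
def rep : ℕ → Bool → Om → Om
  | 0, _, w => w
  | n + 1, b, w => cons b (rep n b w)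

theorem rep_succ (n : ℕ) (b : Bool) (w : Om) : rep (n + 1) b w = cons b (rep n b w) := rfl

theorem rep_add (m n : ℕ) (b : Bool) (w : Om) : rep (m + n) b w = rep m b (rep n b w) := by
  induction m with
  | zero => simp [rep]
  | succ m ih => rw [Nat.succ_add, rep_succ, ih, rep_succ]

theorem rep_cst (n : ℕ) (b : Bool) : rep n b (cst b) = cst b := by
  induction n with
  | zero => rfl
  | succ n ih => rw [rep_succ, ih, cst_cons]

theorem app_replicate (n : ℕ) (b : Bool) (w : Om) : app (List.replicate n b) w = rep n b w := by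
  induction n with
  | zero => simp [rep]
  | succ n ih => rw [List.replicate_succ, app_cons, ih, rep_succ]

theorem E_neg (n : ℕ) (d : Om) : E (-n) d = rep (n + 1) false (cons true d) := by
  induction n with
  | zero => simp [E_zero, rep]
  | succ n ih =>
    have h1 : E (-((n + 1 : ℕ) : ℤ)) d = G⁻¹ (E (-n) d) := by
      have := Gz_E (-1) (-n) d
      rw [zpow_neg_one] at this
      rw [this]; congr 1; push_cast; ring
    rw [h1, ih, rep_succ, Ginv0]
    rfl

theorem E_pos (n : ℕ) (d : Om) : E (n + 1) d = rep (n + 1) true (cons false d) := by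
  induction n with
  | zero =>
    have : E ((0 : ℕ) + 1) d = G (E 0 d) := by rw [G_E]; simp
    rw [this, E_zero, G01]; rfl
  | succ n ih =>
    have : E ((n + 1 : ℕ) + 1) d = G (E (n + 1) d) := by rw [G_E]; push_cast; rfl
    rw [this, ih, rep_succ, G1]; rfl

theorem first_change (w : Om) : w = cst (w 0) ∨ ∃ n d, w = rep (n + 1) (w 0) (cons (!(w 0)) d) := by
  by_cases h : ∃ n, w n ≠ w 0
  · right
    have key : ∀ (n : ℕ) (w : Om), w n ≠ w 0 → ∃ m d, w = rep (m + 1) (w 0) (cons (!(w 0)) d) := by
      intro n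
      induction n with
      | zero => intro w hw; exact absurd rfl hw
      | succ n ih =>
        intro w hw
        by_cases h1 : w 1 = w 0
        · obtain ⟨m, d, hd⟩ := ih (tl w) (by simpa [tl, h1] using hw)
          refine ⟨m + 1, d, ?_⟩
          have h2 : tl w 0 = w 0 := h1
          rw [h2] at hd
          rw [rep_succ, ← hd, cons_tl]
        · refine ⟨0, tl (tl w), ?_⟩
          have h2 : (!(w 0)) = w 1 := by
            cases h3 : w 0 <;> cases h4 : w 1 <;> simp_all
          rw [h2]
          change w = cons (w 0) (cons (tl w 0) (tl (tl w)))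
          rw [cons_tl, cons_tl]
    obtain ⟨n, hn⟩ := h
    exact key n w hn
  · left
    push Not at h
    funext k
    exact h k

theorem cover0 (w : Om) (h : w 0 = false) : w = cst false ∨ ∃ (n : ℕ) (d : Om), w = E (-n) d := by
  rcases first_change w with h1 | ⟨n, d, h1⟩
  · left; rw [h] at h1; exact h1
  · right
    rw [h] at h1
    exact ⟨n, d, by rw [E_neg]; exact h1⟩

theorem cover1 (w : Om) (h : w 0 = true) : w = cst true ∨ ∃ (n : ℕ) (d : Om), w = E (n + 1) d := by
  rcases first_change w with h1 | ⟨n, d, h1⟩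
  · left; rw [h] at h1; exact h1
  · right
    rw [h] at h1
    exact ⟨n, d, by rw [E_pos]; exact h1⟩

theorem cover (w : Om) : (∃ b, w = cst b) ∨ ∃ (i : ℤ) (d : Om), w = E i d := by
  cases h : w 0
  · rcases cover0 w h with h1 | ⟨n, d, h1⟩
    · exact Or.inl ⟨_, h1⟩
    · exact Or.inr ⟨_, _, h1⟩
  · rcases cover1 w h with h1 | ⟨n, d, h1⟩
    · exact Or.inl ⟨_, h1⟩
    · exact Or.inr ⟨_, _, h1⟩

theorem E_inj {i j : ℤ} {d d' : Om} (h : E i d = E j d') : i = j ∧ d = d' := by
  have key : ∀ k : ℤ, E k d = E 0 d' → k = 0 ∧ d = d' := by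
    intro k hk
    rcases lt_trichotomy k 0 with h1 | h1 | h1
    · exfalso
      obtain ⟨n, rfl⟩ : ∃ n : ℕ, k = -((n + 1 : ℕ) : ℤ) := ⟨(-k - 1).toNat, by omega⟩
      rw [E_neg, E_zero, rep_succ, rep_succ] at hk
      have := congrFun hk 1
      simp at this
    · subst h1
      rw [E_zero, E_zero] at hk
      exact ⟨rfl, (cons_inj (cons_inj hk).2).2⟩
    · exfalso
      obtain ⟨n, rfl⟩ : ∃ n : ℕ, k = (n : ℤ) + 1 := ⟨(k - 1).toNat, by omega⟩
      rw [E_pos, E_zero, rep_succ] at hk
      have := congrFun hk 0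
      simp at this
  have h1 : E (i - j) d = E 0 d' := by
    have h2 := congrArg (G ^ (-j)) h
    rw [Gz_E, Gz_E] at h2
    rw [sub_eq_add_neg, h2]
    congr 1; ring
  obtain ⟨h2, h3⟩ := key _ h1
  exact ⟨by omega, h3⟩

theorem E_ne_cst (i : ℤ) (d : Om) (b : Bool) : E i d ≠ cst b := by
  intro h
  have h1 := congrArg (G ^ (-i)) h
  rw [Gz_E, Gz_cst, add_neg_cancel, E_zero] at h1
  have h2 := congrFun h1 0
  have h3 := congrFun h1 1
  have h4 : cons false (cons true d) 1 = true := rfl
  rw [h4] at h3
  simp at h2 h3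
  rw [h3] at h2
  exact absurd h2 (by simp)

/-! ## Lifting permutations of the coordinates -/

/-- The coordinate equivalence. -/
noncomputable def coord : (Bool ⊕ (ℤ × Om)) ≃ Om :=
  Equiv.ofBijective (Sum.elim cst fun p => E p.1 p.2) (by
    constructor
    · rintro (b | ⟨i, d⟩) (b' | ⟨i', d'⟩) h
      · have := congrFun h 0
        simp only [Sum.elim_inl, cst_apply] at this
        rw [this]
      · exact absurd h.symm (E_ne_cst i' d' b)
      · exact absurd h (E_ne_cst i d b')
      · obtain ⟨h1, h2⟩ := E_inj h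
        simp only at h1 h2
        rw [h1, h2]
    · intro w
      rcases cover w with ⟨b, rfl⟩ | ⟨i, d, rfl⟩
      · exact ⟨Sum.inl b, rfl⟩
      · exact ⟨Sum.inr (i, d), rfl⟩)

/-- Lift a permutation of `ℤ × Om` to the Cantor space. -/
noncomputable def lift (ρ : Equiv.Perm (ℤ × Om)) : Equiv.Perm Om :=
  coord.permCongr (Equiv.sumCongr (Equiv.refl Bool) ρ)

theorem lift_E (ρ : Equiv.Perm (ℤ × Om)) (i : ℤ) (d : Om) :
    lift ρ (E i d) = E (ρ (i, d)).1 (ρ (i, d)).2 := by
  have h : coord.symm (E i d) = Sum.inr (i, d) := by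
    rw [Equiv.symm_apply_eq]; rfl
  simp only [lift, Equiv.permCongr_apply, h]
  rfl

theorem lift_cst (ρ : Equiv.Perm (ℤ × Om)) (b : Bool) : lift ρ (cst b) = cst b := by
  have h : coord.symm (cst b) = Sum.inl b := by
    rw [Equiv.symm_apply_eq]; rfl
  simp only [lift, Equiv.permCongr_apply, h]
  rfl

/-- extensionality in coordinates -/
theorem perm_ext {σ τ : Equiv.Perm Om} (h1 : ∀ b, σ (cst b) = τ (cst b))
    (h2 : ∀ i d, σ (E i d) = τ (E i d)) : σ = τ := by
  ext1 w
  rcases cover w with ⟨b, rfl⟩ | ⟨i, d, rfl⟩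
  · exact h1 b
  · exact h2 i d

end Pool.Agent.ThompsonV
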