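import Pool.Agent.ThompsonV.Basic

set_option autoImplicit false

/-! # The multiplication gadget in Thompson's group `V` -/

namespace Pool.Agent.ThompsonV

/-- `V` as a subgroup. -/
def Vsub : Subgroup (Equiv.Perm Om) where
  carrier := {σ | Loc σ}
  mul_mem' := fun h h' => Loc.mul h h'
  one_mem' := Loc.one
  inv_mem' := fun h => Loc.inv h

theorem mem_Vsub {σ : Equiv.Perm Om} : σ ∈ Vsub ↔ Loc σ := Iff.rfl

theorem loc_G : Loc G := by
  intro w
  obtain ⟨b, w, rfl⟩ := exists_cons w
  cases b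
  · obtain ⟨b, w, rfl⟩ := exists_cons w
    cases b
    · refine ⟨[false, false], [false], (pre_iff _ _).2 ⟨w, by simp⟩, fun x => ?_⟩
      simp [G00]
    · refine ⟨[false, true], [true, false], (pre_iff _ _).2 ⟨w, by simp⟩, fun x => ?_⟩
      simp [G01]
  · refine ⟨[true], [true, true], (pre_iff _ _).2 ⟨w, by simp⟩, fun x => ?_⟩
    simp [G1]

theorem loc_Gz (m : ℤ) : Loc (G ^ m) := Vsub.zpow_mem (mem_Vsub.2 loc_G) m

/-- the map acting by `f` behind the letter `b`. -/
def halfFun (b : Bool) (f : Om → Om) (w : Om) : Om := if w 0 = b then cons b (f (tl w)) else w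

theorem halfFun_same (b : Bool) (f : Om → Om) (w : Om) :
    halfFun b f (cons b w) = cons b (f w) := by simp [halfFun]

theorem halfFun_ne {b b' : Bool} (f : Om → Om) (w : Om) (h : b' ≠ b) :
    halfFun b f (cons b' w) = cons b' w := by simp [halfFun, h]

/-- A permutation acting behind the letter `b`. -/
def half (b : Bool) (ρ : Equiv.Perm Om) : Equiv.Perm Om where
  toFun := halfFun b ρ
  invFun := halfFun b ρ.symm
  left_inv w := by
    obtain ⟨b', w, rfl⟩ := exists_cons w
    by_cases h : b' = b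
    · subst h; rw [halfFun_same, halfFun_same]; simp
    · rw [halfFun_ne _ _ h, halfFun_ne _ _ h]
  right_inv w := by
    obtain ⟨b', w, rfl⟩ := exists_cons w
    by_cases h : b' = b
    · subst h; rw [halfFun_same, halfFun_same]; simp
    · rw [halfFun_ne _ _ h, halfFun_ne _ _ h]

theorem half_same (b : Bool) (ρ : Equiv.Perm Om) (w : Om) :
    half b ρ (cons b w) = cons b (ρ w) := halfFun_same b ρ w

theorem half_ne {b b' : Bool} (ρ : Equiv.Perm Om) (w : Om) (h : b' ≠ b) :
    half b ρ (cons b' w) = cons b' w := halfFun_ne ρ w h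

theorem half_mul (b : Bool) (ρ σ : Equiv.Perm Om) : half b (ρ * σ) = half b ρ * half b σ := by
  ext1 w
  obtain ⟨b', w, rfl⟩ := exists_cons w
  rw [Equiv.Perm.mul_apply]
  by_cases h : b' = b
  · subst h; rw [half_same, half_same, half_same]; rfl
  · rw [half_ne _ _ h, half_ne _ _ h, half_ne _ _ h]

theorem half_one (b : Bool) : half b 1 = 1 := by
  ext1 w
  obtain ⟨b', w, rfl⟩ := exists_cons w
  by_cases h : b' = b
  · subst h; rw [half_same]; rfl
  · rw [half_ne _ _ h]; rfl

theorem loc_half (b : Bool) {ρ : Equiv.Perm Om} (h : Loc ρ) : Loc (half b ρ) := by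
  intro w
  obtain ⟨b', w, rfl⟩ := exists_cons w
  by_cases hb : b' = b
  · subst hb
    obtain ⟨u, v, hu, hv⟩ := h w
    obtain ⟨w', rfl⟩ := (pre_iff _ _).1 hu
    refine ⟨b' :: u, b' :: v, (pre_iff _ _).2 ⟨w', by simp⟩, fun x => ?_⟩
    rw [app_cons, half_same, hv, app_cons]
  · refine ⟨[b'], [b'], (pre_iff _ _).2 ⟨w, by simp⟩, fun x => ?_⟩
    rw [app_cons, app_nil, half_ne _ _ hb]

/-- `hp b m` is the `m`-th power of the element acting as `G` behind the letter `b`. -/
def hp (b : Bool) (m : ℤ) : Equiv.Perm Om := half b (G ^ m)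

theorem hp_add (b : Bool) (m n : ℤ) : hp b (m + n) = hp b m * hp b n := by
  rw [hp, hp, hp, zpow_add, half_mul]

theorem hp_zero (b : Bool) : hp b 0 = 1 := by rw [hp, zpow_zero, half_one]

theorem hp_hp (b : Bool) (m n : ℤ) (d : Om) : hp b m (hp b n d) = hp b (m + n) d := by
  rw [hp_add]; rfl

theorem hp_same (b : Bool) (m : ℤ) (d : Om) : hp b m (cons b d) = cons b ((G ^ m) d) :=
  half_same b _ d

theorem hp_ne {b b' : Bool} (m : ℤ) (d : Om) (h : b' ≠ b) : hp b m (cons b' d) = cons b' d :=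
  half_ne _ d h

theorem hp_comm (b b' : Bool) (m n : ℤ) (d : Om) : hp b m (hp b' n d) = hp b' n (hp b m d) := by
  by_cases h : b = b'
  · subst h
    rw [hp_hp, hp_hp, add_comm]
  · obtain ⟨c, d, rfl⟩ := exists_cons d
    by_cases hc : c = b
    · subst hc
      rw [hp_ne _ _ h, hp_same, hp_ne _ _ h]
    · rw [hp_ne m d hc]
      by_cases hc' : c = b'
      · subst hc'
        rw [hp_same, hp_ne _ _ hc]
      · rw [hp_ne _ _ hc', hp_ne _ _ hc]

theorem hp_faithful (b : Bool) (m n : ℤ) (h : ∀ d, hp b m d = hp b n d) : m = n := by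
  have h1 := h (cons b (E 0 (cst false)))
  rw [hp_same, hp_same, Gz_E, Gz_E] at h1
  have := (E_inj (cons_inj h1).2).1
  omega

/-- finite support -/
def FS (C : ℤ → ℤ) : Prop := ∃ K : ℕ, ∀ i : ℤ, (K : ℤ) < |i| → C i = 0

/-- The element acting on level `i` by the `C i`-th power. -/
noncomputable def beta (b : Bool) (C : ℤ → ℤ) : Equiv.Perm Om :=
  lift
    { toFun := fun p => (p.1, hp b (C p.1) p.2)
      invFun := fun p => (p.1, hp b (-(C p.1)) p.2)
      left_inv := fun p => by simp [hp_hp, hp_zero]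
      right_inv := fun p => by simp [hp_hp, hp_zero] }

theorem beta_E (b : Bool) (C : ℤ → ℤ) (i : ℤ) (d : Om) :
    beta b C (E i d) = E i (hp b (C i) d) := by
  rw [beta, lift_E]; rfl

theorem beta_cst (b : Bool) (C : ℤ → ℤ) (b' : Bool) : beta b C (cst b') = cst b' := by
  rw [beta, lift_cst]

theorem beta_mul (b : Bool) (C C' : ℤ → ℤ) :
    beta b C * beta b C' = beta b (fun i => C i + C' i) := by
  apply perm_ext
  · intro b'; rw [Equiv.Perm.mul_apply, beta_cst, beta_cst, beta_cst]
  · intro i d; rw [Equiv.Perm.mul_apply, beta_E, beta_E, beta_E, hp_hp]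

theorem beta_comm (b b' : Bool) (C C' : ℤ → ℤ) :
    beta b C * beta b' C' = beta b' C' * beta b C := by
  apply perm_ext
  · intro c; simp only [Equiv.Perm.mul_apply, beta_cst]
  · intro i d; simp only [Equiv.Perm.mul_apply, beta_E, hp_comm b b']

theorem beta_zero (b : Bool) : beta b (fun _ => 0) = 1 := by
  apply perm_ext
  · intro c; rw [beta_cst]; rfl
  · intro i d; rw [beta_E, hp_zero]; rfl

theorem beta_inv (b : Bool) (C : ℤ → ℤ) : (beta b C)⁻¹ = beta b (fun i => - C i) := by
  rw [inv_eq_iff_mul_eq_one, beta_mul]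
  simp [beta_zero]

theorem beta_conj (b : Bool) (C : ℤ → ℤ) (k : ℤ) :
    (G ^ k)⁻¹ * beta b C * G ^ k = beta b (fun i => C (i + k)) := by
  apply perm_ext
  · intro c
    simp only [Equiv.Perm.mul_apply, beta_cst, Gz_cst]
    rw [Equiv.Perm.inv_eq_iff_eq, Gz_cst]
  · intro i d
    simp only [Equiv.Perm.mul_apply, Gz_E, beta_E]
    rw [Equiv.Perm.inv_eq_iff_eq, Gz_E]

theorem beta_inj {b : Bool} {C C' : ℤ → ℤ} (h : beta b C = beta b C') : C = C' := by
  funext i
  apply hp_faithful b
  intro d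
  have := congrArg (fun σ => σ (E i d)) h
  simp only [beta_E] at this
  exact (E_inj this).2

theorem exists_pre (i : ℤ) : ∃ u : List Bool, ∀ d, E i d = app u d := by
  rcases le_or_gt i 0 with h | h
  · obtain ⟨n, rfl⟩ : ∃ n : ℕ, i = -(n : ℤ) := ⟨(-i).toNat, by omega⟩
    refine ⟨List.replicate (n + 1) false ++ [true], fun d => ?_⟩
    rw [E_neg, app_append, app_replicate]; simp
  · obtain ⟨n, rfl⟩ : ∃ n : ℕ, i = (n : ℤ) + 1 := ⟨(i - 1).toNat, by omega⟩
    refine ⟨List.replicate (n + 1) true ++ [false], fun d => ?_⟩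
    rw [E_pos, app_append, app_replicate]; simp

theorem rep_apply_lt (n : ℕ) (b : Bool) (w : Om) (k : ℕ) (h : k < n) : rep n b w k = b := by
  induction n generalizing k with
  | zero => omega
  | succ n ih =>
    rw [rep_succ]
    cases k with
    | zero => rfl
    | succ k => rw [cons_succ]; exact ih k (by omega)

theorem rep_apply_self (n : ℕ) (b : Bool) (w : Om) : rep n b w n = w 0 := by
  induction n with
  | zero => rfl
  | succ n ih => rw [rep_succ, cons_succ]; exact ih

/-- If `E i d` begins with `A` letters `false` then its level is at most `1 - A`. -/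
theorem level_low {A : ℕ} {i : ℤ} {d x : Om} (hA : 1 ≤ A) (h : E i d = rep A false x) :
    i ≤ 1 - A := by
  by_contra hc
  rcases le_or_gt i 0 with h0 | h0
  · obtain ⟨n, rfl⟩ : ∃ n : ℕ, i = -(n : ℤ) := ⟨(-i).toNat, by omega⟩
    rw [E_neg] at h
    have h1 := congrFun h (n + 1)
    rw [rep_apply_self, rep_apply_lt _ _ _ _ (by omega)] at h1
    simp at h1
  · obtain ⟨n, rfl⟩ : ∃ n : ℕ, i = (n : ℤ) + 1 := ⟨(i - 1).toNat, by omega⟩
    rw [E_pos] at h
    have h1 := congrFun h 0
    rw [rep_apply_lt _ _ _ _ (by omega), rep_apply_lt _ _ _ _ (by omega)] at h1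
    simp at h1

/-- If `E i d` begins with `A` letters `true` then its level is at least `A`. -/
theorem level_high {A : ℕ} {i : ℤ} {d x : Om} (hA : 1 ≤ A) (h : E i d = rep A true x) :
    (A : ℤ) ≤ i := by
  by_contra hc
  rcases le_or_gt i 0 with h0 | h0
  · obtain ⟨n, rfl⟩ : ∃ n : ℕ, i = -(n : ℤ) := ⟨(-i).toNat, by omega⟩
    rw [E_neg] at h
    have h1 := congrFun h 0
    rw [rep_apply_lt _ _ _ _ (by omega), rep_apply_lt _ _ _ _ (by omega)] at h1
    simp at h1
  · obtain ⟨n, rfl⟩ : ∃ n : ℕ, i = (n : ℤ) + 1 := ⟨(i - 1).toNat, by omega⟩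
    rw [E_pos] at h
    have h1 := congrFun h (n + 1)
    rw [rep_apply_self, rep_apply_lt _ _ _ _ (by omega)] at h1
    simp at h1

theorem loc_beta (b : Bool) {C : ℤ → ℤ} (hC : FS C) : Loc (beta b C) := by
  obtain ⟨K, hK⟩ := hC
  intro w
  rcases cover w with ⟨b', rfl⟩ | ⟨i, d, rfl⟩
  · refine ⟨List.replicate (K + 2) b', List.replicate (K + 2) b', ?_, fun x => ?_⟩
    · rw [pre_iff]; exact ⟨cst b', by rw [app_replicate, rep_cst]⟩
    · rw [app_replicate]
      rcases cover (rep (K + 2) b' x) with ⟨c, hc⟩ | ⟨i, d, hd⟩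
      · rw [hc, beta_cst]
      · rw [hd, beta_E]
        have : C i = 0 := by
          apply hK
          cases b'
          · have := level_low (by omega) hd.symm
            rw [lt_abs]; right; push_cast at this; omega
          · have := level_high (by omega) hd.symm
            rw [lt_abs]; left; push_cast at this; omega
        rw [this, hp_zero]; rfl
  · obtain ⟨p, hp'⟩ := exists_pre i
    obtain ⟨u, v, hu, hv⟩ := loc_half b (loc_Gz (C i)) d
    obtain ⟨d', rfl⟩ := (pre_iff _ _).1 hu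
    refine ⟨p ++ u, p ++ v, ?_, fun x => ?_⟩
    · rw [pre_iff]; exact ⟨d', by rw [hp', app_append]⟩
    · rw [app_append, app_append, ← hp', ← hp', beta_E]
      congr 1
      exact hv x

/-! ## Behaviour of elements of `V` near the two fixed points -/

theorem pre_cst {u : List Bool} {b : Bool} (h : Pre u (cst b)) :
    u = List.replicate u.length b := by
  induction u with
  | nil => rfl
  | cons c u ih =>
    rw [pre_cons] at h
    obtain ⟨h0, h1⟩ := h
    have h2 : tl (cst b) = cst b := rfl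
    rw [h2] at h1
    have h3 : b = c := h0
    rw [List.length_cons, List.replicate_succ, ← ih h1, h3]

theorem app_eq_cst {v : List Bool} {b b' : Bool} (h : app v (cst b) = cst b') : b = b' := by
  have h1 := congrFun h v.length
  simpa [app] using h1

theorem loc_cst_cst {σ : Equiv.Perm Om} (hσ : Loc σ) {b b' : Bool} (h : σ (cst b) = cst b') :
    b = b' := by
  obtain ⟨u, v, hu, hv⟩ := hσ (cst b)
  have h1 : app u (cst b) = cst b := by
    rw [pre_cst hu, app_replicate, rep_cst]
  rw [← h1, hv] at h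
  exact app_eq_cst h

theorem end_low {σ : Equiv.Perm Om} (hσ : Loc σ) (h : σ (cst false) = cst false) :
    ∃ (a : ℤ) (K : ℕ), ∀ i : ℤ, i ≤ -(K : ℤ) → ∀ d, σ (E i d) = E (i + a) d := by
  obtain ⟨u, v, hu, hv⟩ := hσ (cst false)
  have hu' := pre_cst hu
  have h1 : app u (cst false) = cst false := by
    rw [hu', app_replicate, rep_cst]
  have h2 : app v (cst false) = cst false := by rw [← hv, h1, h]
  have hv' := pre_cst ((pre_iff v (cst false)).2 ⟨cst false, h2.symm⟩)
  generalize u.length = A at hu'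
  generalize v.length = B at hv'
  subst hu' hv'
  refine ⟨A - B, A, ?_⟩
  intro i hi d
  obtain ⟨n, rfl⟩ : ∃ n : ℕ, i = -((A + n : ℕ) : ℤ) := ⟨(-i).toNat - A, by omega⟩
  have e1 : E (-((A + n : ℕ) : ℤ)) d = app (List.replicate A false) (rep (n + 1) false (cons true d))
      := by rw [E_neg, app_replicate, ← rep_add]; congr 1
  have e2 : E (-((A + n : ℕ) : ℤ) + (A - B)) d
      = app (List.replicate B false) (rep (n + 1) false (cons true d)) := by
    have : -((A + n : ℕ) : ℤ) + (A - B) = -((B + n : ℕ) : ℤ) := by push_cast; ring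
    rw [this, E_neg, app_replicate, ← rep_add]; congr 1
  rw [e1, hv, e2]

theorem end_high {σ : Equiv.Perm Om} (hσ : Loc σ) (h : σ (cst true) = cst true) :
    ∃ (a : ℤ) (K : ℕ), ∀ i : ℤ, (K : ℤ) ≤ i → ∀ d, σ (E i d) = E (i + a) d := by
  obtain ⟨u, v, hu, hv⟩ := hσ (cst true)
  have hu' := pre_cst hu
  have h1 : app u (cst true) = cst true := by
    rw [hu', app_replicate, rep_cst]
  have h2 : app v (cst true) = cst true := by rw [← hv, h1, h]
  have hv' := pre_cst ((pre_iff v (cst true)).2 ⟨cst true, h2.symm⟩)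
  generalize u.length = A at hu'
  generalize v.length = B at hv'
  subst hu' hv'
  refine ⟨B - A, A + 1, ?_⟩
  intro i hi d
  obtain ⟨n, rfl⟩ : ∃ n : ℕ, i = ((A + n : ℕ) : ℤ) + 1 := ⟨(i - 1).toNat - A, by
    push_cast at hi ⊢; omega⟩
  have e1 : E (((A + n : ℕ) : ℤ) + 1) d
      = app (List.replicate A true) (rep (n + 1) true (cons false d))
      := by rw [E_pos, app_replicate, ← rep_add]; congr 1
  have e2 : E (((A + n : ℕ) : ℤ) + 1 + (B - A)) d
      = app (List.replicate B true) (rep (n + 1) true (cons false d)) := by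
    have : ((A + n : ℕ) : ℤ) + 1 + (B - A) = ((B + n : ℕ) : ℤ) + 1 := by push_cast; ring
    rw [this, E_pos, app_replicate, ← rep_add]; congr 1
  rw [e1, hv, e2]

/-- The fixed points. -/
theorem fixes {q Y : Equiv.Perm Om} (hq : Loc q) {n : ℤ} (hn : n ≠ 0)
    (h : q * Y = G ^ n * q) (hY : ∀ b, Y (cst b) = cst b) (b : Bool) : q (cst b) = cst b := by
  have h1 : (G ^ n) (q (cst b)) = q (cst b) := by
    have := congrArg (fun σ => σ (cst b)) h
    simp only [Equiv.Perm.mul_apply, hY] at this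
    exact this.symm
  rcases cover (q (cst b)) with ⟨c, hc⟩ | ⟨i, d, hd⟩
  · rw [hc, loc_cst_cst hq hc]
  · rw [hd, Gz_E] at h1
    have := (E_inj h1).1
    omega

/-- **The monodromy lemma.** -/
theorem monodromy {q : Equiv.Perm Om} (hq : Loc q) {n : ℤ} (hn : n ≠ 0) (b : Bool) (c : ℤ → ℤ)
    (hfix : ∀ b', q (cst b') = cst b')
    (h : ∀ i d, q (E (i + n) (hp b (-(c i)) d)) = (G ^ n) (q (E i d))) :
    ∃ (a : ℤ) (C : ℤ → ℤ), FS C ∧ (∀ i d, q (E i d) = E (i + a) (hp b (C i) d)) ∧
      ∀ i, C (i + n) - C i = c i := by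
  obtain ⟨a, K, hK⟩ := end_low hq (hfix false)
  obtain ⟨a', K', hK'⟩ := end_high hq (hfix true)
  -- propagation
  have step : ∀ (s : ℤ) (i : ℤ), (∃ m : ℤ, ∀ d, q (E i d) = E (i + s) (hp b m d)) →
      ∃ m : ℤ, ∀ d, q (E (i + n) d) = E (i + n + s) (hp b m d) := by
    rintro s i ⟨m, hm⟩
    refine ⟨m + c i, fun d => ?_⟩
    have h1 := h i (hp b (c i) d)
    rw [hp_hp, neg_add_cancel, hp_zero] at h1
    change q (E (i + n) d) = _ at h1
    rw [h1, hm, hp_hp, Gz_E]
    congr 1; ring
  have steps : ∀ (s : ℤ) (j : ℕ) (i : ℤ), (∃ m : ℤ, ∀ d, q (E i d) = E (i + s) (hp b m d)) →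
      ∃ m : ℤ, ∀ d, q (E (i + j * n) d) = E (i + j * n + s) (hp b m d) := by
    intro s j
    induction j with
    | zero => intro i hi; simpa using hi
    | succ j ih =>
      intro i hi
      obtain ⟨m, hm⟩ := step s _ (ih i hi)
      refine ⟨m, fun d => ?_⟩
      have := hm d
      have e : i + ((j + 1 : ℕ) : ℤ) * n = i + j * n + n := by push_cast; ring
      rw [e, this]
  have base1 : ∀ i : ℤ, i ≤ -(K : ℤ) → ∃ m : ℤ, ∀ d, q (E i d) = E (i + a) (hp b m d) := by
    intro i hi
    exact ⟨0, fun d => by rw [hK i hi, hp_zero]; rfl⟩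
  have base2 : ∀ i : ℤ, (K' : ℤ) ≤ i → ∃ m : ℤ, ∀ d, q (E i d) = E (i + a') (hp b m d) := by
    intro i hi
    exact ⟨0, fun d => by rw [hK' i hi, hp_zero]; rfl⟩
  have main : ∃ s : ℤ, ∀ i : ℤ, ∃ m : ℤ, ∀ d, q (E i d) = E (i + s) (hp b m d) := by
    rcases lt_or_gt_of_ne hn with hneg | hpos
    · refine ⟨a', fun i => ?_⟩
      -- go up from `i` by multiples of `-n`
      have hbound : (K' : ℤ) ≤ i - ((K' + i.natAbs : ℕ) : ℤ) * n := by
        have h1 : ((K' + i.natAbs : ℕ) : ℤ) * (-n) ≥ ((K' + i.natAbs : ℕ) : ℤ) * 1 := by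
          apply mul_le_mul_of_nonneg_left _ (by positivity)
          omega
        have h2 : i - ((K' + i.natAbs : ℕ) : ℤ) * n = i + ((K' + i.natAbs : ℕ) : ℤ) * (-n) := by
          ring
        rw [h2]
        push_cast at h1 ⊢
        have h3 := neg_abs_le i
        omega
      have := steps a' (K' + i.natAbs) _ (base2 _ hbound)
      simpa using this
    · refine ⟨a, fun i => ?_⟩
      have hbound : i - ((K + i.natAbs : ℕ) : ℤ) * n ≤ -(K : ℤ) := by
        have h1 : ((K + i.natAbs : ℕ) : ℤ) * n ≥ ((K + i.natAbs : ℕ) : ℤ) * 1 := by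
          apply mul_le_mul_of_nonneg_left _ (by positivity)
          omega
        push_cast at h1 ⊢
        have h3 := le_abs_self i
        omega
      have := steps a (K + i.natAbs) _ (base1 _ hbound)
      simpa using this
  obtain ⟨s, hs⟩ := main
  choose C hC using hs
  refine ⟨s, C, ?_, hC, ?_⟩
  · refine ⟨K + K', fun i hi => ?_⟩
    rw [lt_abs] at hi
    rcases hi with hi | hi
    · have h1 : (K' : ℤ) ≤ i := by push_cast at hi; omega
      have h2 : ∀ d, E (i + s) (hp b (C i) d) = E (i + a') d := fun d => by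
        rw [← hC, hK' i h1]
      apply hp_faithful b
      intro d
      rw [hp_zero]
      exact (E_inj (h2 d)).2
    · have h1 : i ≤ -(K : ℤ) := by push_cast at hi; omega
      have h2 : ∀ d, E (i + s) (hp b (C i) d) = E (i + a) d := fun d => by
        rw [← hC, hK i h1]
      apply hp_faithful b
      intro d
      rw [hp_zero]
      exact (E_inj (h2 d)).2
  · intro i
    have h1 : ∀ d, hp b (C (i + n) - c i) d = hp b (C i) d := by
      intro d
      have h2 := h i d
      rw [hC, hC, hp_hp, Gz_E] at h2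
      exact (E_inj h2).2
    have := hp_faithful b _ _ h1
    omega

/-- Centraliser of `G`. -/
theorem centraliser {q : Equiv.Perm Om} (hq : Loc q) (h : q * G = G * q) :
    ∃ a : ℤ, q = G ^ a := by
  have h' : q * G = G ^ (1 : ℤ) * q := by rw [zpow_one]; exact h
  have hfix := fixes hq one_ne_zero h' G_cst
  obtain ⟨a, C, hC, h1, h2⟩ := monodromy hq one_ne_zero false (fun _ => 0) hfix (by
    intro i d
    rw [neg_zero, hp_zero, ← G_E]
    have := congrArg (fun σ => σ (E i d)) h'
    exact this)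
  have h3 : ∀ i, C i = 0 := by
    obtain ⟨K, hK⟩ := hC
    have h4 : ∀ (j : ℕ) (i : ℤ), C (i + j) = C i := by
      intro j
      induction j with
      | zero => intro i; simp
      | succ j ih =>
        intro i
        have := h2 (i + j)
        have e : i + ((j + 1 : ℕ) : ℤ) = i + j + 1 := by push_cast; ring
        rw [e, ← ih i]; omega
    intro i
    rw [← h4 (K + 1 + i.natAbs) i]
    apply hK
    rw [lt_abs]; left
    push_cast
    have := neg_abs_le i
    omega
  refine ⟨a, ?_⟩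
  apply perm_ext
  · intro b; rw [hfix, Gz_cst]
  · intro i d; rw [h1, h3, hp_zero, Gz_E]; rfl

/-! ## Sums -/

/-- delta function -/
def dl (s i : ℤ) : ℤ := if i = s then 1 else 0

theorem FS.finite {C : ℤ → ℤ} (h : FS C) : (Function.support C).Finite := by
  obtain ⟨K, hK⟩ := h
  apply (Set.finite_Icc (-(K : ℤ)) K).subset
  intro i hi
  by_contra hc
  apply hi
  apply hK
  rw [Set.mem_Icc, ← abs_le, not_le] at hc
  exact hc

theorem FS.add {C D : ℤ → ℤ} (h : FS C) (h' : FS D) : FS (fun i => C i + D i) := by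
  obtain ⟨K, hK⟩ := h
  obtain ⟨L, hL⟩ := h'
  refine ⟨K + L, fun i hi => ?_⟩
  push_cast at hi
  simp only
  rw [hK i (by omega), hL i (by omega), add_zero]

theorem FS.neg {C : ℤ → ℤ} (h : FS C) : FS (fun i => - C i) := by
  obtain ⟨K, hK⟩ := h
  exact ⟨K, fun i hi => by simp only; rw [hK i hi, neg_zero]⟩

theorem FS.dl (s : ℤ) : FS (dl s) := by
  refine ⟨s.natAbs, fun i hi => ?_⟩
  rw [ThompsonV.dl, if_neg]
  rintro rfl
  rw [Int.natCast_natAbs] at hi
  exact lt_irrefl _ hi

/-- total sum -/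
noncomputable def tot (C : ℤ → ℤ) : ℤ := ∑ᶠ i, C i

theorem tot_add {C D : ℤ → ℤ} (h : FS C) (h' : FS D) :
    tot (fun i => C i + D i) = tot C + tot D := finsum_add_distrib h.finite h'.finite

theorem tot_neg (C : ℤ → ℤ) : tot (fun i => - C i) = - tot C := finsum_neg_distrib C

theorem tot_shift (C : ℤ → ℤ) (n : ℤ) : tot (fun i => C (i + n)) = tot C :=
  finsum_comp_equiv (Equiv.addRight n) (f := C)

theorem tot_dl (s : ℤ) : tot (dl s) = 1 := by
  rw [tot, finsum_eq_single _ s]
  · simp [dl]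
  · intro i hi; simp [dl, hi]

theorem FS.shift {C : ℤ → ℤ} (h : FS C) (n : ℤ) : FS (fun i => C (i + n)) := by
  obtain ⟨K, hK⟩ := h
  refine ⟨K + n.natAbs, fun i hi => hK _ ?_⟩
  push_cast at hi
  have h1 : |i| ≤ |i + n| + |n| := by
    have := abs_sub (i + n) n
    simpa using this
  omega

theorem FS.mul_id {C : ℤ → ℤ} (h : FS C) (F : ℤ → ℤ) : FS (fun i => F i * C i) := by
  obtain ⟨K, hK⟩ := h
  exact ⟨K, fun i hi => by simp only; rw [hK i hi, mul_zero]⟩

theorem weight {C : ℤ → ℤ} (hC : FS C) {n k : ℤ}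
    (h : ∀ i, C (i + n) - C i = dl (-k) i - dl 0 i) : k = n * tot C := by
  have h1 : tot (fun i => i * (C (i + n) - C i)) = - (n * tot C) := by
    have e : (fun i => i * (C (i + n) - C i))
        = fun i => (fun j => (j - n) * C j) (i + n) + - (i * C i) := by
      funext i; ring
    have e0 := tot_add ((hC.mul_id (fun j => j - n)).shift n) (hC.mul_id (fun i => i)).neg
    rw [e]
    refine e0.trans ?_
    have e1 := tot_shift (fun j => (j - n) * C j) n
    rw [tot_neg]
    refine (congrArg (· + _) e1).trans ?_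
    have e2 : (fun j => (j - n) * C j) = fun j => j * C j + (-n) * C j := by
      funext i; ring
    have e5 := tot_add (hC.mul_id (fun i => i)) (hC.mul_id (fun _ => -n))
    rw [e2, e5]
    have e3 : tot (fun j => -n * C j) = -n * tot C := by
      rw [tot, tot, mul_finsum]
    rw [e3]; ring
  have h2 : tot (fun i => i * (C (i + n) - C i)) = -k := by
    have e : (fun i => i * (C (i + n) - C i)) = fun i => i * dl (-k) i + - (i * dl 0 i) := by
      funext i; rw [h]; ring
    have e0 := tot_add ((FS.dl (-k)).mul_id (fun i => i)) ((FS.dl 0).mul_id (fun i => i)).neg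
    rw [e, e0, tot_neg]
    have e4 : tot (fun i => i * dl (-k) i) = -k := by
      rw [tot, finsum_eq_single _ (-k)]
      · simp [dl]
      · intro i hi; simp [dl, hi]
    have e5 : tot (fun i => i * dl 0 i) = 0 := by
      rw [tot, finsum_eq_single _ 0]
      · simp [dl]
      · intro i hi; simp [dl, hi]
    rw [e4, e5]; ring
  linarith

theorem tot_zero {R D : ℤ → ℤ} (hR : FS R) (h : ∀ i, R (i + 1) - R i = D i) : tot D = 0 := by
  have e : D = fun i => R (i + 1) + - R i := by
    funext i; rw [← h]; ring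
  rw [e, tot_add (hR.shift 1) hR.neg, tot_shift, tot_neg]; ring

/-- The solution of `C (i+n) - C i = dl (-nm) i - dl 0 i`. -/
theorem exists_C (n m : ℤ) : ∃ C : ℤ → ℤ, FS C ∧ tot C = m ∧
    ∀ i, C (i + n) - C i = dl (-(n * m)) i - dl 0 i := by
  induction m using Int.induction_on with
  | zero =>
    refine ⟨fun _ => 0, ⟨0, fun _ _ => rfl⟩, by simp [tot], fun i => ?_⟩
    simp
  | succ m ih =>
    obtain ⟨C, hC, h1, h2⟩ := ih
    refine ⟨fun i => C i + dl (-(n * m)) i, hC.add (FS.dl _), ?_, fun i => ?_⟩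
    · rw [tot_add hC (FS.dl _), h1, tot_dl]
    · have e1 : dl (-(n * (m : ℤ))) (i + n) = dl (-(n * ((m : ℤ) + 1))) i := by
        have : i + n = -(n * (m : ℤ)) ↔ i = -(n * ((m : ℤ) + 1)) := by
          constructor <;> intro h <;> linarith
        simp only [dl, this]
      have := h2 i
      simp only [e1]
      linarith
  | pred m ih =>
    obtain ⟨C, hC, h1, h2⟩ := ih
    refine ⟨fun i => C i + - dl (-(n * (-(m : ℤ) - 1))) i, hC.add (FS.dl _).neg, ?_, fun i => ?_⟩
    · rw [tot_add hC (FS.dl _).neg, h1, tot_neg, tot_dl]; ring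
    · have e1 : dl (-(n * (-(m : ℤ) - 1))) (i + n) = dl (-(n * (-(m : ℤ)))) i := by
        have : i + n = -(n * (-(m : ℤ) - 1)) ↔ i = -(n * (-(m : ℤ))) := by
          constructor <;> intro h <;> linarith
        simp only [dl, this]
      have := h2 i
      simp only [e1]
      linarith

/-- Partial sums. -/
theorem exists_R {D : ℤ → ℤ} (hD : FS D) (h0 : tot D = 0) :
    ∃ R : ℤ → ℤ, FS R ∧ ∀ i, R (i + 1) - R i = D i := by
  obtain ⟨K, hK⟩ := hD
  refine ⟨fun i => ∑ j ∈ Finset.Ico (-(K : ℤ)) i, D j, ⟨K + 1, fun i hi => ?_⟩, fun i => ?_⟩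
  · rw [lt_abs] at hi
    rcases hi with hi | hi
    · push_cast at hi
      have : tot D = ∑ j ∈ Finset.Ico (-(K : ℤ)) i, D j := by
        apply finsum_eq_sum_of_support_subset
        intro j hj
        rw [Finset.mem_coe, Finset.mem_Ico]
        by_contra hc
        apply hj
        apply hK
        rw [lt_abs]
        omega
      simp only
      rw [← this, h0]
    · push_cast at hi
      have : Finset.Ico (-(K : ℤ)) i = ∅ := by
        apply Finset.Ico_eq_empty
        omega
      simp only [this, Finset.sum_empty]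
  · simp only
    rcases lt_or_ge i (-(K : ℤ)) with hi | hi
    · have h1 : Finset.Ico (-(K : ℤ)) i = ∅ := Finset.Ico_eq_empty (by omega)
      have h2 : Finset.Ico (-(K : ℤ)) (i + 1) = ∅ := Finset.Ico_eq_empty (by omega)
      rw [h1, h2, hK i (by rw [lt_abs]; omega)]; simp
    · have h1 : Finset.Ico (-(K : ℤ)) (i + 1) = insert i (Finset.Ico (-(K : ℤ)) i) := by
        ext j
        simp only [Finset.mem_Ico, Finset.mem_insert]
        omega
      rw [h1, Finset.sum_insert (by simp)]
      ring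

/-! ## The gadget -/

/-- The constant `H`. -/
noncomputable def H : Equiv.Perm Om := beta false (dl 0)

/-- The constant `W`. -/
noncomputable def W : Equiv.Perm Om := beta true (dl 0)

theorem u_eq (k : ℤ) : H⁻¹ * ((G ^ k)⁻¹ * H * G ^ k)
    = beta false (fun i => dl (-k) i - dl 0 i) := by
  rw [H, beta_conj, beta_inv, beta_mul]
  congr 1
  funext i
  have : dl 0 (i + k) = dl (-k) i := by
    have : i + k = 0 ↔ i = -k := by constructor <;> intro h <;> linarith
    simp only [dl, this]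
  rw [this]; ring

theorem solve {q : Equiv.Perm Om} (hq : Loc q) {n : ℤ} (hn : n ≠ 0) (c : ℤ → ℤ)
    (h : (G ^ n)⁻¹ * q * G ^ n = q * beta false c) :
    (∀ b, q (cst b) = cst b) ∧ ∃ (a : ℤ) (C : ℤ → ℤ), FS C ∧
      (∀ i d, q (E i d) = E (i + a) (hp false (C i) d)) ∧ ∀ i, C (i + n) - C i = c i := by
  have h1 : q * (G ^ n * (beta false c)⁻¹) = G ^ n * q := by
    have h2 : q * G ^ n = G ^ n * (q * beta false c) := by
      rw [← h]; group
    calc q * (G ^ n * (beta false c)⁻¹) = (q * G ^ n) * (beta false c)⁻¹ := by group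
      _ = G ^ n * q := by rw [h2]; group
  have hY : ∀ b, (G ^ n * (beta false c)⁻¹) (cst b) = cst b := by
    intro b
    rw [Equiv.Perm.mul_apply, beta_inv, beta_cst, Gz_cst]
  have hfix := fixes hq hn h1 hY
  refine ⟨hfix, monodromy hq hn false c hfix ?_⟩
  intro i d
  have h3 := congrArg (fun σ => σ (E i d)) h1
  simp only [Equiv.Perm.mul_apply, beta_inv, beta_E, Gz_E] at h3
  exact h3

theorem solveW {q : Equiv.Perm Om} (hq : Loc q) {n : ℤ} (hn : n ≠ 0) (k : ℤ)
    (h : (G ^ n)⁻¹ * q * G ^ n = q * H⁻¹ * ((G ^ k)⁻¹ * H * G ^ k)) (hW : q * W = W * q) :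
    ∃ C : ℤ → ℤ, FS C ∧ q = beta false C ∧ k = n * tot C := by
  rw [mul_assoc q, u_eq] at h
  obtain ⟨hfix, a, C, hC, h1, h2⟩ := solve hq hn _ h
  have ha : a = 0 := by
    by_contra ha
    have h3 := congrArg (fun σ => σ (E 0 (cons true (E 0 (cst false))))) hW
    simp only [Equiv.Perm.mul_apply, W, beta_E, h1] at h3
    have h4 := (E_inj h3).2
    have e1 : dl 0 0 = 1 := by simp [dl]
    have e2 : dl 0 (0 + a) = 0 := by simp [dl, ha]
    rw [e1, e2, hp_zero, hp_same, hp_ne _ _ (by simp), hp_ne _ _ (by simp)] at h4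
    have h5 := (cons_inj h4).2
    rw [Gz_E] at h5
    have h6 := (E_inj (h5 : E (0 + 1) _ = E 0 _)).1
    omega
  subst ha
  refine ⟨C, hC, ?_, weight hC h2⟩
  apply perm_ext
  · intro b; rw [hfix, beta_cst]
  · intro i d; rw [h1, beta_E, add_zero]

/-- The system of equations defining multiplication. -/
def Mul (y v z q q1 r : Equiv.Perm Om) : Prop :=
  y⁻¹ * q * y = q * H⁻¹ * (z⁻¹ * H * z) ∧ q * W = W * q ∧
  G⁻¹ * q1 * G = q1 * H⁻¹ * (v⁻¹ * H * v) ∧ q1 * W = W * q1 ∧
  G⁻¹ * r * G = r * q1⁻¹ * q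

theorem Mul.sound {n m k : ℤ} {q q1 r : Equiv.Perm Om} (hq : Loc q) (hq1 : Loc q1) (hr : Loc r)
    (h : Mul (G ^ n) (G ^ m) (G ^ k) q q1 r) : n * m = k := by
  obtain ⟨h1, h2, h3, h4, h5⟩ := h
  have h3' : (G ^ (1 : ℤ))⁻¹ * q1 * G ^ (1 : ℤ) = q1 * H⁻¹ * ((G ^ m)⁻¹ * H * G ^ m) := by
    rw [zpow_one]; exact h3
  obtain ⟨C', hC', e1, e2⟩ := solveW hq1 one_ne_zero m h3' h4
  by_cases hn : n = 0
  · subst hn
    rw [zpow_zero, mul_assoc q, u_eq] at h1
    have h6 : beta false (fun i => dl (-k) i - dl 0 i) = 1 := by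
      have : q * beta false (fun i => dl (-k) i - dl 0 i) = q * 1 := by rw [← h1]; group
      exact mul_left_cancel this
    rw [← beta_zero false] at h6
    have h7 := congrFun (beta_inj h6) 0
    simp only [dl] at h7
    by_contra hk
    have : ¬ (0 : ℤ) = -k := by omega
    simp [this] at h7
  · obtain ⟨C, hC, e3, e4⟩ := solveW hq hn k h1 h2
    have h5' : (G ^ (1 : ℤ))⁻¹ * r * G ^ (1 : ℤ) = r * beta false (fun i => - C' i + C i) := by
      rw [zpow_one, h5, e1, e3, beta_inv, mul_assoc, beta_mul]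
    obtain ⟨_, a, R, hR, _, h8⟩ := solve hr one_ne_zero _ h5'
    have h9 := tot_zero hR h8
    rw [tot_add hC'.neg hC, tot_neg] at h9
    have : tot C = m := by rw [e2]; linarith
    rw [e4, this]

theorem Mul.complete (n m : ℤ) : ∃ q q1 r : Equiv.Perm Om, Loc q ∧ Loc q1 ∧ Loc r ∧
    Mul (G ^ n) (G ^ m) (G ^ (n * m)) q q1 r := by
  obtain ⟨C, hC, hC1, hC2⟩ := exists_C n m
  obtain ⟨C', hC', hC1', hC2'⟩ := exists_C 1 m
  have hD : FS (fun i => - C' i + C i) := hC'.neg.add hC
  have hD0 : tot (fun i => - C' i + C i) = 0 := by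
    rw [tot_add hC'.neg hC, tot_neg, hC1, hC1']; ring
  obtain ⟨R, hR, hR1⟩ := exists_R hD hD0
  refine ⟨beta false C, beta false C', beta false R, loc_beta _ hC, loc_beta _ hC',
    loc_beta _ hR, ?_, ?_, ?_, ?_, ?_⟩
  · rw [mul_assoc _ H⁻¹, u_eq, beta_conj, beta_mul]
    congr 1
    funext i
    have := hC2 i
    linarith
  · rw [W, beta_comm]
  · rw [mul_assoc _ H⁻¹, u_eq, beta_mul]
    have := beta_conj false C' 1
    rw [zpow_one] at this
    rw [this]
    congr 1
    funext i
    have := hC2' i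
    rw [one_mul] at this
    linarith
  · rw [W, beta_comm]
  · have := beta_conj false R 1
    rw [zpow_one] at this
    rw [this, beta_inv, mul_assoc, beta_mul, beta_mul]
    congr 1
    funext i
    have := hR1 i
    linarith

end Pool.Agent.ThompsonV
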